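import Pool.Agent.helper50.NPT.Spec3

/-!
# Project NPT (MP_8f32d0_ag), row SLP: the slope
-/

set_option autoImplicit false

namespace NPT

open scoped Classical
open AN
open Pool.Agent.helper53.AU

theorem SLP (_hZD : ZD_stmt) (hFA : FA_stmt) (hFS : FS_stmt) (hFG : FG_stmt) (hFH2 : FH2_stmt) (hCEX : CEX_stmt) (hFVC : FVC_stmt)
    (hTTE : TTE_stmt) (hSLO : SLO_stmt) (hFPC : FPC_stmt) (_hFPD : FPD_stmt) : SLP_stmt := by
  intro p _ k F _ _ _ _ _ g hg hG P Q hPQ n m hn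
  obtain ⟨hFF, hgen, hpr, ha, hnFV⟩ := hG
  obtain ⟨ι, hι⟩ := hFA k F hFF P
  obtain ⟨γ, a, hK, hreg⟩ := hFS p k F hFF g hgen P ι hι
  have hMN : MN p (HW p γ a) g = 0 := hFG p k F hFF P ι hι g γ a hK hreg hpr
  have hrk := hFH2 p k F hFF P ι hι g γ a hK hreg
  rw [ha] at hrk
  have hid : (HW p γ a).map (RingHom.id k) = HW p γ a := by
    ext i j
    rfl
  obtain ⟨T, hT⟩ := hCEX p k g γ a hK (by omega) hMN k (RingHom.id k) (fun _ _ h => h) (by rw [hid]; omega)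
  have hLV : ¬ LV p γ a (2 * g - 2) 2 := fun h =>
    hnFV P Q hPQ ((hFVC p k F hFF P Q hPQ ι hι g γ a hK hreg (2 * g - 2) 2).mpr h)
  have htau : T.tau ≠ 0 := fun h => hLV ((hTTE p k g γ a hK (by omega) hMN (by omega) T hT).mpr h)
  exact hSLO p k g γ a hK hg hMN (by omega) T htau n m ((hFPC p k F hFF P Q hPQ ι hι g γ a hK hreg n m).mp hn)

end NPT
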